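import Pool.Agent.H23.RDD.Targets

set_option autoImplicit false

/-!
# Heights of numbers of bounded degree over cyclotomic fields (module FRD)
-/

namespace Pool.Agent.H70.RDD

open NumberField Height Finset IntermediateField Polynomial Pool.Agent.H24.RD Pool.Agent.H23.RDD

theorem pf_FRD : T_HA → T_HB → T_FT → T_FP → T_FRD := by
  intro hHA hHB hFT hFP K Ω _ _ _ _ _ _ _ ℓ hℓ d hd
  haveI : Algebra.IsAlgebraic ℚ Ω := Algebra.IsAlgebraic.trans ℚ K Ω
  haveI : IsAlgClosure K Ω := ⟨inferInstance, inferInstance⟩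
  haveI : Normal K Ω := IsAlgClosure.normal K Ω
  set e := Module.finrank ℚ K with he
  set q := ℓ ^ e.factorial with hq
  set A := ℓ ^ (e * d + d + 1) with hA
  have hq2 : 2 ≤ q := by
    calc 2 ≤ ℓ := hℓ.two_le
      _ = ℓ ^ 1 := (pow_one _).symm
      _ ≤ ℓ ^ e.factorial := Nat.pow_le_pow_right hℓ.pos (Nat.factorial_pos e)
  have hA0 : 0 < A := pow_pos hℓ.pos _
  have hlog2 : 0 < Real.log 2 := Real.log_pos one_lt_two
  have hqR : (2 : ℝ) ≤ (q : ℝ) := by exact_mod_cast hq2
  have hAR : (0 : ℝ) < (A : ℝ) := by exact_mod_cast hA0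
  have hdR : (0 : ℝ) < (d : ℝ) := by exact_mod_cast hd
  refine ⟨Real.log 2 / (d * (A * (q + 1))), by positivity, ?_⟩
  intro N' hN' β hβ0 hCj hβr
  have hN0 : N' ≠ 0 := fun h => hN' (h ▸ dvd_zero ℓ)
  haveI : NeZero N' := ⟨hN0⟩
  haveI : NeZero (N' : Ω) := ⟨by exact_mod_cast hN0⟩
  obtain ⟨ζ', hζ'⟩ := HasEnoughRootsOfUnity.exists_primitiveRoot Ω N'
  set E := IntermediateField.adjoin K {z : Ω | z ^ N' = 1} with hE
  have hζE : ζ' ∈ E := IntermediateField.subset_adjoin K _ hζ'.pow_eq_one
  have hEs : E = IntermediateField.adjoin K {ζ'} := by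
    apply le_antisymm
    · rw [hE]
      apply IntermediateField.adjoin_le_iff.2
      intro z hz
      obtain ⟨i, -, rfl⟩ := hζ'.eq_pow_of_pow_eq_one hz
      exact pow_mem (IntermediateField.mem_adjoin_simple_self K ζ') i
    · apply IntermediateField.adjoin_le_iff.2
      intro z hz
      rw [Set.mem_singleton_iff] at hz
      rw [hz]; exact hζE
  haveI hfd : FiniteDimensional K E := by
    rw [hEs]
    exact IntermediateField.adjoin.finiteDimensional
      (Algebra.IsIntegral.isIntegral (R := K) ζ')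
  haveI : FiniteDimensional ℚ E := FiniteDimensional.trans ℚ K E
  haveI : CharZero E := charZero_of_injective_algebraMap (algebraMap K E).injective
  haveI : NumberField E := {}
  set ζ : E := ⟨ζ', hζE⟩ with hζ
  have hζp : IsPrimitiveRoot ζ N' :=
    IsPrimitiveRoot.of_map_of_injective (f := E.val) (by exact hζ') E.val.injective
  have htop : IntermediateField.adjoin K {ζ} = ⊤ := by
    apply IntermediateField.lift_injective E
    rw [IntermediateField.lift_adjoin_simple, IntermediateField.lift_top]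
    exact hEs.symm
  obtain ⟨M, f, s, hMfd, hEM, hscard, hβs, hsx, hfm, hfs, hMτ⟩ := hFT K Ω E hfd d β hβ0 hCj
  haveI : FiniteDimensional K M := hMfd
  haveI : FiniteDimensional ℚ M := FiniteDimensional.trans ℚ K M
  haveI : CharZero M := charZero_of_injective_algebraMap (algebraMap K M).injective
  haveI : NumberField M := {}
  letI : Algebra E M := (IntermediateField.inclusion hEM).toRingHom.toAlgebra
  have halg : ∀ x : E, ((algebraMap E M x : M) : Ω) = (x : Ω) := fun x => rfl
  obtain ⟨σ, hσ⟩ := hFP K E M ℓ hℓ d hd N' hN' ζ hζp htop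
  have hcomm : ∀ y : E, (σ.liftNormal Ω) (y : Ω) = ((σ y : E) : Ω) := fun y =>
    σ.liftNormal_commutes Ω y
  have hinjM : Function.Injective (algebraMap M Ω) := (algebraMap M Ω).injective
  set b : M := ⟨β, (hsx β hβs).1⟩ with hb
  set z : s → M := fun x => ⟨(σ.liftNormal Ω) (x : Ω), hMτ _ _ (hsx x.1 x.2).1⟩ with hz
  -- the root
  have hbf : aeval b f = 0 := by
    apply hinjM
    have h1 : ((algebraMap M Ω).comp (algebraMap E M)) = algebraMap E Ω := rfl
    have h2 : algebraMap M Ω b = β := rfl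
    rw [map_zero, Polynomial.aeval_def, Polynomial.hom_eval₂, h1, h2, ← Polynomial.eval_map, hfs,
      Polynomial.eval_prod]
    apply Finset.prod_eq_zero hβs
    rw [Polynomial.eval_sub, Polynomial.eval_X, Polynomial.eval_C, sub_self]
  have hprod : (f.map (σ : E →+* E)).map (algebraMap E M) = ∏ j, (X - C (z j)) := by
    apply Polynomial.map_injective (algebraMap M Ω) hinjM
    rw [Polynomial.map_map, Polynomial.map_map, Polynomial.map_prod]
    have h1 : ((algebraMap M Ω).comp (algebraMap E M)).comp (σ : E →+* E) =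
        ((σ.liftNormal Ω : Ω ≃ₐ[K] Ω) : Ω →+* Ω).comp (algebraMap E Ω) := by
      apply RingHom.ext
      intro y
      exact (hcomm y).symm
    rw [h1, ← Polynomial.map_map, hfs, Polynomial.map_prod, ← Finset.prod_coe_sort]
    apply Finset.prod_congr rfl
    intro j _
    rw [Polynomial.map_sub, Polynomial.map_sub, Polynomial.map_X, Polynomial.map_X, Polynomial.map_C,
      Polynomial.map_C]
    rfl
  have hcard : Fintype.card s ≤ d := by rw [Fintype.card_coe]; exact hscard
  have hkey := hσ f hfm b hbf s hcard z hprod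
  obtain ⟨-, -, -, hpow, -, hinv, hroot⟩ := hHB Ω
  set h := absLogHeight₁ β with hh
  have hbh : absLogHeight₁ ((b : M) : Ω) = h := rfl
  have hzh : ∀ j : s, absLogHeight₁ ((z j : M) : Ω) = h := by
    intro j
    obtain ⟨-, -, σ', hσ', he'⟩ := hsx j.1 j.2
    have h1 := hinv (σ.liftNormal Ω : Ω ≃ₐ[K] Ω).toRingEquiv j.1
    have h2 := hinv σ'.toRingEquiv β
    have h3 : σ'.toRingEquiv β = j.1 := he'
    rw [h3] at h2
    rw [h2] at h1
    exact h1
  set D : ℝ := (Module.finrank ℚ M : ℝ) with hD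
  have hD0 : 0 < D := by
    rw [hD]; exact_mod_cast Module.finrank_pos (R := ℚ) (M := M)
  have hAO : ∀ x : M, logHeight₁ x = D * absLogHeight₁ (x : Ω) := by
    intro x
    have h1 : absLogHeight₁ (x : Ω) = logHeight₁ x / D := hHA M Ω x
    rw [h1]
    field_simp
  have hzero : h = 0 → False := by
    intro h0
    obtain ⟨n, hn, hn1⟩ := hroot β hβ0 h0
    exact hβr n hn hn1
  have hpos : 0 ≤ h := (hHB Ω).1 β
  rcases hkey with ⟨j, hj⟩ | hkey
  · exfalso
    have h1 := congrArg (fun x : M => absLogHeight₁ (x : Ω)) hj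
    rw [IntermediateField.coe_pow, IntermediateField.coe_pow, IntermediateField.coe_pow, hpow, hpow, hpow,
      hzh, hbh] at h1
    apply hzero
    have h2 : (A : ℝ) * ((q : ℝ) * h) = A * h := h1
    have h3 := mul_left_cancel₀ hAR.ne' h2
    nlinarith
  · have h1 : ∑ j, (logHeight₁ ((b ^ q) ^ A) + logHeight₁ ((z j) ^ A)) =
        (Fintype.card s : ℝ) * (D * ((A : ℝ) * (q * h) + A * h)) := by
      rw [Finset.sum_congr rfl (g := fun _ => D * ((A : ℝ) * (q * h) + A * h)), Finset.sum_const,
        Finset.card_univ, nsmul_eq_mul]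
      intro j _
      rw [hAO, hAO, IntermediateField.coe_pow, IntermediateField.coe_pow, IntermediateField.coe_pow, hpow,
        hpow, hpow, hzh, hbh]
      ring
    have h2 : D * Real.log 2 ≤ (Fintype.card s : ℝ) * (D * ((A : ℝ) * (q * h) + A * h)) := by
      rw [← h1]
      exact hkey
    have h3 : (Fintype.card s : ℝ) ≤ d := by exact_mod_cast hcard
    have h4 : 0 ≤ D * ((A : ℝ) * (q * h) + A * h) := by positivity
    have h5 : D * Real.log 2 ≤ D * (d * ((A : ℝ) * (q * h) + A * h)) := by
      calc D * Real.log 2 ≤ (Fintype.card s : ℝ) * (D * ((A : ℝ) * (q * h) + A * h)) := h2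
        _ ≤ d * (D * ((A : ℝ) * (q * h) + A * h)) := mul_le_mul_of_nonneg_right h3 h4
        _ = D * (d * ((A : ℝ) * (q * h) + A * h)) := by ring
    have h6 := le_of_mul_le_mul_left h5 hD0
    rw [div_le_iff₀ (by positivity)]
    calc Real.log 2 ≤ d * ((A : ℝ) * (q * h) + A * h) := h6
      _ = h * (d * (A * (q + 1))) := by ring

end Pool.Agent.H70.RDD
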