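import Pool.Agent.H23.RDD.Targets
import Pool.Agent.H30.RD.STC

set_option autoImplicit false

/-!
# The algebraic part of the cyclotomic step (module STCC)
-/

namespace Pool.Agent.H70.RDD

open NumberField Height Finset Pool.Agent.H24.RD Pool.Agent.H23.RDD Pool.Agent.H30.RD

theorem pf_STCC : T_STCC := by
  intro F Ω _ _ _ _ _ _ _ p hp r γ hγ n m n1 R lam N' K' hm hn1 hn hnR hR hlam hN' hK' τ hτ ζ hζ hτζ
    d β hβ hCj hRed hβτ
  have : IsAlgClosure F Ω := ⟨inferInstance, inferInstance⟩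
  have : Normal F Ω := IsAlgClosure.normal F Ω
  have : IsGalois F Ω := {}
  have hγΩ : ∀ i, algebraMap F Ω (γ i) ≠ 0 := fun i => by
    rw [Ne, map_eq_zero]
    exact hγ i
  have hpn : ∀ k : ℕ, p ^ k ≠ 0 := fun k => pow_ne_zero _ hp.ne_zero
  have hN0 : N' ≠ 0 := by
    rintro rfl
    exact hN' (dvd_zero p)
  have hK0 : K' ≠ 0 := by
    rintro rfl
    exact hN0 (Nat.eq_zero_of_zero_dvd hK')
  have hcopN : ∀ k, Nat.Coprime (p ^ k) N' := fun k =>
    Nat.Coprime.pow_left _ ((Nat.Prime.coprime_iff_not_dvd hp).2 hN')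
  have hcopK : ∀ k, Nat.Coprime (p ^ k) K' := fun k => Nat.Coprime.coprime_dvd_right hK' (hcopN k)
  have hζ0 : ζ ≠ 0 := hζ.ne_zero (hpn n)
  -- the roots of the `γ i` are fixed
  have hfixγ : ∀ z : Ω, (∃ i, z ^ (p ^ m * K') = algebraMap F Ω (γ i)) → τ z = z := by
    rintro z ⟨i, hz⟩
    have hz0 : z ≠ 0 := by
      rintro rfl
      rw [zero_pow (mul_ne_zero (hpn m) hK0)] at hz
      exact hγΩ i hz.symm
    obtain ⟨a, b, hab⟩ := (Nat.isCoprime_iff_coprime.2 (hcopK m))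
    have h1 : τ (z ^ (p ^ m)) = z ^ (p ^ m) := by
      apply hτ
      right; right; right
      exact ⟨i, by rw [← pow_mul, hz]⟩
    obtain ⟨θ, hθ⟩ := IsAlgClosed.exists_pow_nat_eq (algebraMap F Ω (γ i)) (Nat.pos_of_ne_zero (hpn n1))
    have hθ0 : θ ≠ 0 := by
      rintro rfl
      rw [zero_pow (hpn n1)] at hθ
      exact hγΩ i hθ.symm
    have h2 : τ θ = θ := hτ θ (Or.inr (Or.inr (Or.inl ⟨i, hθ⟩)))
    have h3 : τ (z ^ K' / θ ^ (p ^ (n1 - m))) = z ^ K' / θ ^ (p ^ (n1 - m)) := by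
      apply hτ
      right; left
      have e1 : (z ^ K' / θ ^ (p ^ (n1 - m))) ^ (p ^ m) = 1 := by
        rw [div_pow, ← pow_mul, ← pow_mul, mul_comm K', hz, ← pow_add, Nat.sub_add_cancel hm, hθ,
          div_self (hγΩ i)]
      have e2 : p ^ n1 = p ^ m * p ^ (n1 - m) := by
        rw [← pow_add]
        congr 1
        omega
      rw [e2, pow_mul, e1, one_pow]
    have h4 : τ (z ^ K') = z ^ K' := by
      have e : z ^ K' = z ^ K' / θ ^ (p ^ (n1 - m)) * θ ^ (p ^ (n1 - m)) := by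
        rw [div_mul_cancel₀]
        exact pow_ne_zero _ hθ0
      rw [e, map_mul, h3, map_pow, h2]
    have h5 : z = (z ^ (p ^ m)) ^ a * (z ^ K') ^ b := by
      rw [← zpow_natCast z (p ^ m), ← zpow_natCast z K', ← zpow_mul, ← zpow_mul, ← zpow_add₀ hz0,
        mul_comm _ a, mul_comm _ b, hab, zpow_one]
    rw [h5, map_mul, map_zpow₀, map_zpow₀, h1, h4]
  -- roots of unity
  have hroot : ∀ z : Ω, z ^ (p ^ n * N') = 1 → ∃ (w : Ω) (k : ℕ), w ^ N' = 1 ∧ z = w * ζ ^ k := by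
    intro z hz
    have hz0 : z ≠ 0 := by
      rintro rfl
      rw [zero_pow (mul_ne_zero (hpn n) hN0)] at hz
      exact zero_ne_one hz
    obtain ⟨a, b, hab⟩ := (Nat.isCoprime_iff_coprime.2 (hcopN n))
    have h5 : z = (z ^ (p ^ n)) ^ a * (z ^ N') ^ b := by
      rw [← zpow_natCast z (p ^ n), ← zpow_natCast z N', ← zpow_mul, ← zpow_mul, ← zpow_add₀ hz0,
        mul_comm _ a, mul_comm _ b, hab, zpow_one]
    have h6 : ((z ^ N') ^ b) ^ (p ^ n) = 1 := by
      rw [← zpow_natCast, zpow_comm, zpow_natCast, ← pow_mul, mul_comm N', hz, one_zpow]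
    have h7 : ((z ^ (p ^ n)) ^ a) ^ N' = 1 := by
      rw [← zpow_natCast, zpow_comm, zpow_natCast, ← pow_mul, hz, one_zpow]
    have : NeZero (p ^ n) := ⟨hpn n⟩
    obtain ⟨k, -, hk⟩ := hζ.eq_pow_of_pow_eq_one h6
    exact ⟨_, k, h7, by rw [hk, ← h5]⟩
  -- automorphisms that fix everything
  have hall : ∀ υ : Ω ≃ₐ[F] Ω, υ ζ = ζ → (∀ w : Ω, w ^ N' = 1 → υ w = w) →
      (∀ z : Ω, (∃ i, z ^ (p ^ m * K') = algebraMap F Ω (γ i)) → υ z = z) →
      ∀ z ∈ Lv F Ω γ (p ^ n * N') (p ^ m * K'), υ z = z := by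
    intro υ h1 h2 h3
    apply fix_adjoin
    rintro z (hz | hz)
    · obtain ⟨w, k, hw, rfl⟩ := hroot z hz
      rw [map_mul, map_pow, h1, h2 w hw]
    · exact h3 z hz
  have hpowfix : ∀ (k : ℕ) (y : Ω), τ y = y → (τ ^ k) y = y := by
    intro k y hy
    induction k with
    | zero => rfl
    | succ k ih => rw [pow_succ', AlgEquiv.mul_apply, ih, hy]
  set ρ : Ω := τ ζ / ζ with hρ
  set X : Ω := τ β / β with hX
  have hρR : ρ ^ (p ^ R) = 1 := by
    have h1 : τ (ζ ^ (p ^ R)) = ζ ^ (p ^ R) := by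
      apply hτ
      right; left
      rw [← pow_mul, ← pow_add]
      have : p ^ (R + n1) = p ^ n * p ^ (R + n1 - n) := by
        rw [← pow_add]
        congr 1
        omega
      rw [this, pow_mul, hζ.pow_eq_one, one_pow]
    rw [hρ, div_pow, ← map_pow, h1, div_self (pow_ne_zero _ hζ0)]
  have hfixp : ∀ (k : ℕ) (y : Ω), k ≤ n1 → y ^ (p ^ k) = 1 → τ y = y := by
    intro k y hk hy
    apply hτ
    right; left
    have : p ^ n1 = p ^ k * p ^ (n1 - k) := by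
      rw [← pow_add]
      congr 1
      omega
    rw [this, pow_mul, hy, one_pow]
  have hτρ : τ ρ = ρ := hfixp R ρ hR hρR
  have hXl : X ^ (p ^ lam) = 1 := by
    rw [hX, div_pow, hβτ, div_self (pow_ne_zero _ hβ)]
  have hτX : τ X = X := hfixp lam X hlam hXl
  have hτζ' : τ ζ = ρ * ζ := by
    rw [hρ, div_mul_cancel₀ _ hζ0]
  have hτβ' : τ β = X * β := by
    rw [hX, div_mul_cancel₀ _ hβ]
  have hkζ : ∀ k : ℕ, (τ ^ k) ζ = ρ ^ k * ζ := by
    intro k
    induction k with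
    | zero => simp
    | succ k ih => rw [pow_succ', AlgEquiv.mul_apply, ih, map_mul, map_pow, hτρ, hτζ', pow_succ]; ring
  have hkβ : ∀ k : ℕ, (τ ^ k) β = X ^ k * β := by
    intro k
    induction k with
    | zero => simp
    | succ k ih => rw [pow_succ', AlgEquiv.mul_apply, ih, map_mul, map_pow, hτX, hτβ', pow_succ]; ring
  have hρ1 : ρ ≠ 1 := by
    intro h
    apply hτζ
    rw [hτζ', h, one_mul]
  -- the order of `ρ`
  obtain ⟨a', ha1, ha2⟩ : ∃ a', ρ ^ (p ^ a') ≠ 1 ∧ ρ ^ (p ^ (a' + 1)) = 1 := by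
    classical
    have hex : ∃ k, ρ ^ (p ^ k) = 1 := ⟨R, hρR⟩
    have h0 : Nat.find hex ≠ 0 := by
      intro h
      have := Nat.find_spec hex
      rw [h, pow_zero, pow_one] at this
      exact hρ1 this
    obtain ⟨k, hk⟩ := Nat.exists_eq_succ_of_ne_zero h0
    refine ⟨k, Nat.find_min hex (by omega), ?_⟩
    have := Nat.find_spec hex
    rw [hk] at this
    exact this
  have hρp : (ρ ^ (p ^ a')) ^ p = 1 := by
    rw [← pow_mul, ← pow_succ]
    exact ha2
  have hprim : IsPrimitiveRoot (ρ ^ (p ^ a')) p := by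
    have h1 := orderOf_eq_prime hρp ha1 (hp := ⟨hp⟩)
    have h2 := IsPrimitiveRoot.orderOf (ρ ^ (p ^ a'))
    rwa [h1] at h2
  have hXp : (X ^ (p ^ a')) ^ p = 1 := by
    rw [← pow_mul, ← pow_succ]
    have h1 : (τ ^ (p ^ (a' + 1))) β = β := by
      refine hRed _ ?_ (p ^ lam) (Nat.pos_of_ne_zero (hpn lam)) ?_
      · apply hall
        · rw [hkζ, ha2, one_mul]
        · intro w hw
          exact hpowfix _ _ (hτ w (Or.inl hw))
        · intro z hz
          exact hpowfix _ _ (hfixγ z hz)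
      · rw [hkβ, mul_pow, ← pow_mul, mul_comm (p ^ (a' + 1)), pow_mul, hXl, one_pow, one_mul]
    rw [hkβ] at h1
    exact mul_right_cancel₀ hβ (h1.trans (one_mul β).symm)
  have : NeZero p := ⟨hp.ne_zero⟩
  obtain ⟨i, -, hi⟩ := hprim.eq_pow_of_pow_eq_one hXp
  have hζi : ζ ^ i ≠ 0 := pow_ne_zero _ hζ0
  -- the power of `τ` fixes the quotient
  have hfix1 : (τ ^ (p ^ a')) (β / ζ ^ i) = β / ζ ^ i := by
    have hX0 : X ^ (p ^ a') ≠ 0 := by
      rw [← hi]
      exact pow_ne_zero _ (hprim.ne_zero hp.ne_zero)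
    rw [map_div₀, map_pow, hkβ, hkζ, mul_pow, hi, mul_div_mul_left _ _ hX0]
  -- the main point
  have hmain : ∀ σ : Ω ≃ₐ[F] Ω, (∀ z ∈ Lv F Ω γ (p ^ (n - 1) * N') (p ^ m * K'), σ z = z) →
      ∃ υ : Ω ≃ₐ[F] Ω, (∀ z ∈ Lv F Ω γ (p ^ n * N') (p ^ m * K'), υ z = z) ∧
        σ (β / ζ ^ i) = υ β / ζ ^ i := by
    intro σ hσ
    have hσζ : (σ ζ / ζ) ^ p = 1 := by
      have h1 : σ (ζ ^ p) = ζ ^ p := by
        apply hσ
        apply IntermediateField.subset_adjoin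
        left
        rw [← pow_mul, ← mul_assoc, ← pow_succ', Nat.sub_add_cancel (by omega), pow_mul,
          hζ.pow_eq_one, one_pow]
      rw [div_pow, ← map_pow, h1, div_self (pow_ne_zero _ hζ0)]
    obtain ⟨k, -, hk⟩ := hprim.eq_pow_of_pow_eq_one hσζ
    have hσζ2 : σ ζ = (ρ ^ (p ^ a')) ^ k * ζ := by
      rw [hk, div_mul_cancel₀ _ hζ0]
    have hinv : ∀ x y : Ω, (τ ^ (p ^ a' * k)) y = x → (τ ^ (p ^ a' * k))⁻¹ x = y := by
      intro x y h
      rw [← h, ← AlgEquiv.mul_apply, inv_mul_cancel]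
      rfl
    have hσω : σ ((ρ ^ (p ^ a')) ^ k) = (ρ ^ (p ^ a')) ^ k := by
      apply hσ
      apply IntermediateField.subset_adjoin
      left
      have e : p ^ (n - 1) * N' = p * (p ^ (n - 1 - 1) * N') := by
        rw [← mul_assoc, ← pow_succ']
        congr 2
        omega
      rw [e, ← pow_mul, show k * (p * (p ^ (n - 1 - 1) * N')) = p * (k * (p ^ (n - 1 - 1) * N')) by ring,
        pow_mul, hρp, one_pow]
    have hω0 : (ρ ^ (p ^ a')) ^ k ≠ 0 := pow_ne_zero _ (hprim.ne_zero hp.ne_zero)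
    have hτω : (τ ^ (p ^ a' * k)) ((ρ ^ (p ^ a')) ^ k) = (ρ ^ (p ^ a')) ^ k := by
      apply hpowfix
      rw [map_pow, map_pow, hτρ]
    have hυζ : (σ * (τ ^ (p ^ a' * k))⁻¹) ζ = ζ := by
      rw [AlgEquiv.mul_apply]
      have h1 : (τ ^ (p ^ a' * k))⁻¹ ζ = ((ρ ^ (p ^ a')) ^ k)⁻¹ * ζ := by
        apply hinv
        rw [map_mul, map_inv₀, hτω, hkζ, pow_mul, inv_mul_cancel_left₀ hω0]
      rw [h1, map_mul, map_inv₀, hσω, hσζ2, inv_mul_cancel_left₀ hω0]
    have hυ : ∀ z ∈ Lv F Ω γ (p ^ n * N') (p ^ m * K'), (σ * (τ ^ (p ^ a' * k))⁻¹) z = z := by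
      apply hall
      · exact hυζ
      · intro w hw
        rw [AlgEquiv.mul_apply, hinv w w (hpowfix _ _ (hτ w (Or.inl hw)))]
        apply hσ
        apply IntermediateField.subset_adjoin
        left
        rw [mul_comm, pow_mul, hw, one_pow]
      · intro z hz
        rw [AlgEquiv.mul_apply, hinv z z (hpowfix _ _ (hfixγ z hz))]
        apply hσ
        apply IntermediateField.subset_adjoin
        right
        exact hz
    refine ⟨σ * (τ ^ (p ^ a' * k))⁻¹, hυ, ?_⟩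
    have hfixk : (τ ^ (p ^ a' * k)) (β / ζ ^ i) = β / ζ ^ i := by
      rw [pow_mul]
      generalize hq : τ ^ (p ^ a') = q at hfix1
      clear hk hσζ2 hinv hσω hω0 hτω hυζ hυ
      induction k with
      | zero => rfl
      | succ k ih => rw [pow_succ', AlgEquiv.mul_apply, ih, hfix1]
    have h2 : σ (β / ζ ^ i) = (σ * (τ ^ (p ^ a' * k))⁻¹) (β / ζ ^ i) := by
      rw [AlgEquiv.mul_apply, hinv _ _ hfixk]
    rw [h2, map_div₀, map_pow, hυζ]
  refine ⟨i, ?_, ?_⟩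
  · classical
    obtain ⟨s, hs, hsσ⟩ := hCj
    refine ⟨s.image (fun x => x / ζ ^ i), Finset.card_image_le.trans hs, ?_⟩
    intro σ hσ
    obtain ⟨υ, hυ, he⟩ := hmain σ hσ
    rw [he]
    exact Finset.mem_image_of_mem (fun x => x / ζ ^ i) (hsσ υ hυ)
  · intro σ hσ k hk hk2
    obtain ⟨υ, hυ, he⟩ := hmain σ hσ
    rw [he] at hk2 ⊢
    rw [div_pow, div_pow, div_left_inj' (pow_ne_zero _ hζi)] at hk2
    rw [hRed υ hυ k hk hk2]

end Pool.Agent.H70.RDD
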